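import Pool.Agent.Helper60.AD.Defs
import Pool.Agent.Helper22.OV.Shift

/-!
# AD, block A11: it is enough to know the bound for rational radii and centres
-/

open MeasureTheory Real Set Filter Topology

set_option autoImplicit false

namespace Pool.Agent.Helper11.AD

open Pool.Agent.Helper22.AE
open Pool.Agent.Helper22.AC (cntc)
open Pool.Agent.Helper22.OV (shf exists_shift)

/-- the lattice points of a domain are finitely many -/
private theorem cntc_fin (H : ℝ → ℝ) (c : ℝ × ℝ) (R : ℝ) :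
    Finite {k : ℤ × ℤ // ∀ θ : ℝ, ((k.1 : ℝ) - c.1) * cos θ + ((k.2 : ℝ) - c.2) * sin θ ≤ R * H θ} := by
  have hsub : {k : ℤ × ℤ | ∀ θ : ℝ, ((k.1 : ℝ) - c.1) * cos θ + ((k.2 : ℝ) - c.2) * sin θ ≤ R * H θ} ⊆
      (Set.Icc ⌈c.1 - R * H π⌉ ⌊c.1 + R * H 0⌋) ×ˢ (Set.Icc ⌈c.2 - R * H (-(π / 2))⌉ ⌊c.2 + R * H (π / 2)⌋) := by
    intro k hk
    have h1 := hk 0
    have h2 := hk π
    have h3 := hk (π / 2)
    have h4 := hk (-(π / 2))
    rw [cos_zero, sin_zero] at h1
    rw [cos_pi, sin_pi] at h2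
    rw [cos_pi_div_two, sin_pi_div_two] at h3
    rw [cos_neg, sin_neg, cos_pi_div_two, sin_pi_div_two] at h4
    refine ⟨⟨Int.ceil_le.2 ?_, Int.le_floor.2 ?_⟩, ⟨Int.ceil_le.2 ?_, Int.le_floor.2 ?_⟩⟩ <;> linarith
  exact (((Set.finite_Icc _ _).prod (Set.finite_Icc _ _)).subset hsub).to_subtype

/-- monotonicity -/
private theorem cntc_mono {H : ℝ → ℝ} {c c' : ℝ × ℝ} {R R' : ℝ}
    (h : ∀ θ, (c.1 - c'.1) * cos θ + (c.2 - c'.2) * sin θ ≤ (R' - R) * H θ) : cntc H c R ≤ cntc H c' R' := by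
  unfold cntc
  have := cntc_fin H c' R'
  refine Nat.cast_le.2 (Nat.card_le_card_of_injective (fun k => ⟨k.1, fun θ => ?_⟩) ?_)
  · have h1 := k.2 θ
    have h2 := h θ
    nlinarith
  · intro a b hab
    exact Subtype.ext (by simpa using hab)

/-- the domain contains a disc around the point `-v` -/
private theorem disc {H : ℝ → ℝ} (h2 : ContDiff ℝ 2 H) (hp : Function.Periodic H (2 * π)) (hr : ∀ θ, 0 < H θ + deriv (deriv H) θ) :
    ∃ (v : ℝ × ℝ) (r : ℝ), 0 < r ∧ ∀ θ, r ≤ H θ + (v.1 * cos θ + v.2 * sin θ) := by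
  obtain ⟨v, hv⟩ := exists_shift h2 hp hr
  obtain ⟨x, hx, hmin⟩ := isCompact_Icc.exists_isMinOn (Set.nonempty_Icc.2 two_pi_pos.le) hv.smooth.continuous.continuousOn
  refine ⟨v, shf H v x, hv.pos x, fun θ => ?_⟩
  obtain ⟨y, hy, hy'⟩ := hv.per.exists_mem_Ico₀ two_pi_pos θ
  have h3 : shf H v x ≤ shf H v y := hmin ⟨hy.1, hy.2.le⟩
  rw [← hy'] at h3
  exact h3

private theorem near {H : ℝ → ℝ} {v : ℝ × ℝ} {r : ℝ} (hr : 0 < r) (h : ∀ θ, r ≤ H θ + (v.1 * cos θ + v.2 * sin θ))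
    {t : ℝ} (ht : 0 < t) (c : ℝ × ℝ) :
    (∃ d : ℚ × ℚ, ∀ θ, (c.1 - d.1) * cos θ + (c.2 - d.2) * sin θ ≤ t * H θ) ∧
      ∃ d : ℚ × ℚ, ∀ θ, (d.1 - c.1) * cos θ + (d.2 - c.2) * sin θ ≤ t * H θ := by
  have key : ∀ (x y θ : ℝ), |x| ≤ t * r / 2 → |y| ≤ t * r / 2 →
      -(t * (v.1 * cos θ + v.2 * sin θ)) + (x * cos θ + y * sin θ) ≤ t * H θ := by
    intro x y θ hx hy
    have h1 : x * cos θ ≤ |x| := by
      calc x * cos θ ≤ |x * cos θ| := le_abs_self _
        _ = |x| * |cos θ| := abs_mul _ _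
        _ ≤ |x| * 1 := mul_le_mul_of_nonneg_left (abs_cos_le_one θ) (abs_nonneg _)
        _ = |x| := mul_one _
    have h2 : y * sin θ ≤ |y| := by
      calc y * sin θ ≤ |y * sin θ| := le_abs_self _
        _ = |y| * |sin θ| := abs_mul _ _
        _ ≤ |y| * 1 := mul_le_mul_of_nonneg_left (abs_sin_le_one θ) (abs_nonneg _)
        _ = |y| := mul_one _
    have h3 : t * r ≤ t * (H θ + (v.1 * cos θ + v.2 * sin θ)) := mul_le_mul_of_nonneg_left (h θ) ht.le
    linarith
  have htr : 0 < t * r / 2 := by positivity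
  constructor
  · obtain ⟨d1, h1, h1'⟩ := exists_rat_btwn (show c.1 + t * v.1 < c.1 + t * v.1 + t * r / 2 by linarith)
    obtain ⟨d2, h2, h2'⟩ := exists_rat_btwn (show c.2 + t * v.2 < c.2 + t * v.2 + t * r / 2 by linarith)
    refine ⟨(d1, d2), fun θ => ?_⟩
    have h3 := key (c.1 + t * v.1 - d1) (c.2 + t * v.2 - d2) θ (abs_le.2 ⟨by linarith, by linarith⟩) (abs_le.2 ⟨by linarith, by linarith⟩)
    simp only
    linarith
  · obtain ⟨d1, h1, h1'⟩ := exists_rat_btwn (show c.1 - t * v.1 < c.1 - t * v.1 + t * r / 2 by linarith)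
    obtain ⟨d2, h2, h2'⟩ := exists_rat_btwn (show c.2 - t * v.2 < c.2 - t * v.2 + t * r / 2 by linarith)
    refine ⟨(d1, d2), fun θ => ?_⟩
    have h3 := key (d1 - (c.1 - t * v.1)) (d2 - (c.2 - t * v.2)) θ (abs_le.2 ⟨by linarith, by linarith⟩) (abs_le.2 ⟨by linarith, by linarith⟩)
    simp only
    linarith

/-- it is enough to know the bound for rational radii and centres -/
theorem rat_red {H : ℝ → ℝ} (h2 : ContDiff ℝ 2 H) (hp : Function.Periodic H (2 * π)) (hr : ∀ θ, 0 < H θ + deriv (deriv H) θ)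
    (e : ℝ) (he : 0 ≤ e) :
    (∃ C : ℝ, ∀ R : ℝ, 1 ≤ R → ∀ c : ℝ × ℝ, |cntc H c R - area H * R ^ 2| ≤ C * R ^ e) ↔
    (∃ C : ℕ, ∀ R : ℚ, 1 ≤ R → ∀ c : ℚ × ℚ, |cntc H ((c.1 : ℝ), (c.2 : ℝ)) (R : ℝ) - area H * (R : ℝ) ^ 2| ≤ C * (R : ℝ) ^ e) := by
  constructor
  · rintro ⟨C, hC⟩
    refine ⟨⌈C⌉₊, fun R hR c => ?_⟩
    have hR1 : (1 : ℝ) ≤ R := by exact_mod_cast hR
    refine (hC R hR1 _).trans (mul_le_mul_of_nonneg_right (Nat.le_ceil C) (Real.rpow_nonneg (by linarith) _))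
  · rintro ⟨C, hC⟩
    obtain ⟨v, r, hr0, hv⟩ := disc h2 hp hr
    refine ⟨C + |area H|, fun R hR c => ?_⟩
    have hR0 : 0 < R := by linarith
    have hRe : 1 ≤ R ^ e := Real.one_le_rpow hR he
    have hcont : ∀ s : ℝ, ContinuousAt (fun x : ℝ => area H * x ^ 2 + s * x ^ e) R := by
      intro s
      exact (continuousAt_const.mul (continuousAt_id.pow 2)).add
        (continuousAt_const.mul (Real.continuousAt_rpow_const R e (Or.inl hR0.ne')))
    -- the upper bound
    have hup : cntc H c R ≤ area H * R ^ 2 + C * R ^ e := by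
      by_contra hcon
      rw [not_le] at hcon
      have h1 := (hcont C).eventually_lt continuousAt_const hcon
      obtain ⟨δ, hδ, h3⟩ := Metric.eventually_nhds_iff.1 h1
      obtain ⟨q, hq1, hq2⟩ := exists_rat_btwn (show R < R + δ by linarith)
      have h4 := h3 (y := q) (by rw [Real.dist_eq, abs_lt]; constructor <;> linarith)
      obtain ⟨⟨d, hd⟩, -⟩ := near hr0 hv (show 0 < (q : ℝ) - R by linarith) c
      have h5 : cntc H c R ≤ cntc H ((d.1 : ℝ), (d.2 : ℝ)) q := cntc_mono hd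
      have hq : (1 : ℚ) ≤ q := by
        have : (1 : ℝ) ≤ q := by linarith
        exact_mod_cast this
      have h6 := (abs_le.1 (hC q hq d)).2
      linarith
    -- the lower bound
    have hlow : area H * R ^ 2 + (-(C + |area H|)) * R ^ e ≤ cntc H c R := by
      rcases hR.eq_or_lt with h1 | h1
      · rw [← h1, Real.one_rpow]
        have h3 : 0 ≤ cntc H c 1 := by unfold cntc; positivity
        have h4 : (0 : ℝ) ≤ C := Nat.cast_nonneg C
        linarith [le_abs_self (area H)]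
      · have hl : area H * R ^ 2 + (-(C : ℝ)) * R ^ e ≤ cntc H c R := by
          by_contra hcon
          rw [not_le] at hcon
          have h1' := continuousAt_const.eventually_lt (hcont (-(C : ℝ))) hcon
          obtain ⟨δ, hδ, h3⟩ := Metric.eventually_nhds_iff.1 h1'
          obtain ⟨q, hq1, hq2⟩ := exists_rat_btwn (show max 1 (R - δ) < R from max_lt h1 (by linarith))
          have hq3 := lt_of_le_of_lt (le_max_left _ _) hq1
          have hq4 := lt_of_le_of_lt (le_max_right _ _) hq1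
          have h4 := h3 (y := q) (by rw [Real.dist_eq, abs_lt]; constructor <;> linarith)
          obtain ⟨-, d, hd⟩ := near hr0 hv (show 0 < R - (q : ℝ) by linarith) c
          have h5 : cntc H ((d.1 : ℝ), (d.2 : ℝ)) q ≤ cntc H c R := cntc_mono hd
          have hq : (1 : ℚ) ≤ q := by exact_mod_cast hq3.le
          have h6 := (abs_le.1 (hC q hq d)).1
          linarith
        have h3 : 0 ≤ |area H| * R ^ e := by positivity
        linarith
    have h3 : 0 ≤ |area H| * R ^ e := by positivity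
    rw [abs_le]
    constructor <;> linarith

end Pool.Agent.Helper11.AD
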