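import Pool.Agent.Helper60.AD.Defs
import Pool.Agent.Helper22.OV.Shift

/-!
# AD, parts of block A10: small radii, uniformly in the centre; shift of the origin
-/

open MeasureTheory Real Set Filter Topology

set_option autoImplicit false

namespace Pool.Agent.Helper11.AD

open Pool.Agent.Helper22.AE
open Pool.Agent.Helper22.AC (cntc)
open Pool.Agent.Helper22.OV (shf exists_shift cntc_shf area_shf)

/-- the number of integers of an interval -/
private theorem icc_card (a b : ℝ) (L : ℝ) (hL : 0 ≤ L) (h : b - a ≤ L) :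
    ((Finset.Icc ⌈a⌉ ⌊b⌋).card : ℝ) ≤ L + 1 := by
  rw [Int.card_Icc]
  rcases le_or_gt 0 (⌊b⌋ + 1 - ⌈a⌉) with h1 | h1
  · have h2 : (((⌊b⌋ + 1 - ⌈a⌉).toNat : ℕ) : ℝ) = ((⌊b⌋ + 1 - ⌈a⌉ : ℤ) : ℝ) := by
      rw [← Int.cast_natCast, Int.toNat_of_nonneg h1]
    rw [h2]
    push_cast
    have h3 := Int.floor_le b
    have h4 := Int.le_ceil a
    linarith
  · rw [Int.toNat_of_nonpos h1.le]
    simp only [Nat.cast_zero]
    linarith

/-- the number of the lattice points, uniformly in the centre -/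
theorem cntc_le (H : ℝ → ℝ) (c : ℝ × ℝ) (R : ℝ) (hR : 0 ≤ R) :
    0 ≤ cntc H c R ∧ cntc H c R ≤ (R * (|H 0| + |H π|) + 1) * (R * (|H (π / 2)| + |H (-(π / 2))|) + 1) := by
  constructor
  · unfold cntc
    positivity
  · have hsub : {k : ℤ × ℤ | ∀ θ : ℝ, ((k.1 : ℝ) - c.1) * cos θ + ((k.2 : ℝ) - c.2) * sin θ ≤ R * H θ} ⊆
        ((Finset.Icc ⌈c.1 - R * H π⌉ ⌊c.1 + R * H 0⌋ ×ˢ Finset.Icc ⌈c.2 - R * H (-(π / 2))⌉ ⌊c.2 + R * H (π / 2)⌋ : Finset (ℤ × ℤ)) :
          Set (ℤ × ℤ)) := by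
      intro k hk
      have h1 := hk 0
      have h2 := hk π
      have h3 := hk (π / 2)
      have h4 := hk (-(π / 2))
      rw [cos_zero, sin_zero] at h1
      rw [cos_pi, sin_pi] at h2
      rw [cos_pi_div_two, sin_pi_div_two] at h3
      rw [cos_neg, sin_neg, cos_pi_div_two, sin_pi_div_two] at h4
      rw [Finset.mem_coe, Finset.mem_product, Finset.mem_Icc, Finset.mem_Icc]
      refine ⟨⟨Int.ceil_le.2 ?_, Int.le_floor.2 ?_⟩, ⟨Int.ceil_le.2 ?_, Int.le_floor.2 ?_⟩⟩ <;> linarith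
    have h1 : cntc H c R = ({k : ℤ × ℤ | ∀ θ : ℝ, ((k.1 : ℝ) - c.1) * cos θ + ((k.2 : ℝ) - c.2) * sin θ ≤ R * H θ}.ncard : ℝ) := rfl
    have h2 := Set.ncard_le_ncard hsub (Finset.finite_toSet _)
    rw [Set.ncard_coe_finset, Finset.card_product] at h2
    rw [h1]
    refine (Nat.cast_le.2 h2).trans ?_
    push_cast
    have e1 : c.1 + R * H 0 - (c.1 - R * H π) ≤ R * (|H 0| + |H π|) := by
      nlinarith [le_abs_self (H 0), le_abs_self (H π)]
    have e2 : c.2 + R * H (π / 2) - (c.2 - R * H (-(π / 2))) ≤ R * (|H (π / 2)| + |H (-(π / 2))|) := by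
      nlinarith [le_abs_self (H (π / 2)), le_abs_self (H (-(π / 2)))]
    have f1 : 0 ≤ R * (|H 0| + |H π|) := by positivity
    have f2 : 0 ≤ R * (|H (π / 2)| + |H (-(π / 2))|) := by positivity
    exact mul_le_mul (icc_card _ _ _ f1 e1) (icc_card _ _ _ f2 e2) (by positivity) (by linarith)

/-- small radii, all centres -/
theorem small_rad (H : ℝ → ℝ) (R₂ : ℝ) : ∃ C : ℝ, 0 < C ∧ ∀ R : ℝ, 1 ≤ R → R ≤ R₂ → ∀ c : ℝ × ℝ,
    |cntc H c R - area H * R ^ 2| ≤ C := by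
  refine ⟨(|R₂| * (|H 0| + |H π|) + 1) * (|R₂| * (|H (π / 2)| + |H (-(π / 2))|) + 1) + |area H| * R₂ ^ 2, by positivity,
    fun R hR hR2 c => ?_⟩
  have hR0 : 0 ≤ R := by linarith
  obtain ⟨h1, h2⟩ := cntc_le H c R hR0
  have h3 : R ≤ |R₂| := hR2.trans (le_abs_self _)
  have h4 : cntc H c R ≤ (|R₂| * (|H 0| + |H π|) + 1) * (|R₂| * (|H (π / 2)| + |H (-(π / 2))|) + 1) := by
    refine h2.trans (mul_le_mul ?_ ?_ (by positivity) (by positivity))
    · exact add_le_add_left (mul_le_mul_of_nonneg_right h3 (by positivity)) 1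
    · exact add_le_add_left (mul_le_mul_of_nonneg_right h3 (by positivity)) 1
  have h5 : |area H * R ^ 2| ≤ |area H| * R₂ ^ 2 := by
    rw [abs_mul, abs_of_nonneg (sq_nonneg R)]
    exact mul_le_mul_of_nonneg_left (pow_le_pow_left₀ hR0 hR2 2) (abs_nonneg _)
  calc |cntc H c R - area H * R ^ 2| ≤ |cntc H c R| + |area H * R ^ 2| := abs_sub _ _
    _ ≤ _ := by
      rw [abs_of_nonneg h1]
      linarith

/-- small radii with a power -/
theorem small_rad_pow (H : ℝ → ℝ) (R₂ : ℝ) : ∃ C : ℝ, 0 < C ∧ ∀ R : ℝ, 1 ≤ R → R ≤ R₂ → ∀ c : ℝ × ℝ, ∀ e : ℝ, 0 ≤ e →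
    |cntc H c R - area H * R ^ 2| ≤ C * R ^ e := by
  obtain ⟨C, hC, h⟩ := small_rad H R₂
  refine ⟨C, hC, fun R hR hR2 c e he => (h R hR hR2 c).trans ?_⟩
  nlinarith [Real.one_le_rpow hR he]

/-- shift of the origin: the number of the lattice points -/
theorem cntc_shift (H : ℝ → ℝ) (p c : ℝ × ℝ) (R : ℝ) :
    cntc H c R = cntc (fun θ => H θ - (p.1 * cos θ + p.2 * sin θ)) (c.1 + R * p.1, c.2 + R * p.2) R := by
  have h := cntc_shf H (-p) c R
  have e1 : shf H (-p) = fun θ => H θ - (p.1 * cos θ + p.2 * sin θ) := by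
    funext θ
    unfold shf
    rw [Prod.fst_neg, Prod.snd_neg]
    ring
  have e2 : (c.1 - R * (-p).1, c.2 - R * (-p).2) = (c.1 + R * p.1, c.2 + R * p.2) := by
    rw [Prod.fst_neg, Prod.snd_neg]
    simp only [mul_neg, sub_neg_eq_add]
  rw [e1, e2] at h
  exact h.symm

/-- shift of the origin: the area -/
theorem area_shift (H : ℝ → ℝ) (p : ℝ × ℝ) : area H = area (fun θ => H θ - (p.1 * cos θ + p.2 * sin θ)) := by
  have h := area_shf H (-p)
  have e1 : shf H (-p) = fun θ => H θ - (p.1 * cos θ + p.2 * sin θ) := by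
    funext θ
    unfold shf
    rw [Prod.fst_neg, Prod.snd_neg]
    ring
  rw [e1] at h
  exact h.symm

/-- a point inside of the domain -/
theorem exists_inner {H : ℝ → ℝ} (h2 : ContDiff ℝ 2 H) (hp : Function.Periodic H (2 * π)) (hr : ∀ θ, 0 < H θ + deriv (deriv H) θ) :
    ∃ p : ℝ × ℝ, IsSupp (fun θ => H θ - (p.1 * cos θ + p.2 * sin θ)) := by
  obtain ⟨v, hv⟩ := exists_shift h2 hp hr
  refine ⟨-v, ?_⟩
  have e1 : shf H v = fun θ => H θ - ((-v).1 * cos θ + (-v).2 * sin θ) := by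
    funext θ
    unfold shf
    rw [Prod.fst_neg, Prod.snd_neg]
    ring
  rw [← e1]
  exact hv

end Pool.Agent.Helper11.AD
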